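import Pool.Agent.Run7.h479.XX.Cls
import Pool.Agent.Run7.h479.XX.Unit

/-!
# Kato's main conjecture given his divisibility: one limit over the numbers of points decides

In the notation of the problem let `H` be the module `H¹_Iw(ℚ, T)` if it is free over `Λ` (it is for irreducible `ρ̄`;
in general its reflexive hull, with the same characteristic ideals), `h₀` a generator, `z_∞ = λ h₀`, so that
`char_Λ(H / Λ z_∞) = (λ)`. For an even character `χ` of `Gal(ℚ_m/ℚ)`, as a character modulo `p^n`, `n ≥ 1`, let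
`φ_χ : H → ℂ_p` be the map `y ↦ ∑_σ χ(σ) σ(exp* loc_p y_m) / ω_E`; it satisfies `φ_χ(a y) = a(χ) φ_χ(y)` for `a ∈ Λ` (with the
value of `a` at `χ` or `χ⁻¹`, according to the conventions), and `φ_χ(z_∞) = L_{(p)}(E, χ, 1) / Ω_E^+`. For `γ > π/2`, `T > 0` put

`S_χ(T) = ∑_ℓ ∑_{k ≥ 1} χ(ℓ)^k (β_{ℓ,1}^k + β_{ℓ,2}^k) / (k ℓ^k) · exp(iγ k log ℓ / T) / Γ(1 + k log ℓ / T)`,

where `χ(p) = 0` and `β_{ℓ,1}^k + β_{ℓ,2}^k = q + 1 - #E(𝔽_q)`, `q = ℓ^k`, for the primes `ℓ` of good reduction. The series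
converges absolutely and `exp(S_χ(T)) → L_{(p)}(E, χ, 1)` for `T → ∞`. No hypothesis on zeros is used. Fix
embeddings `ι`, `j` of a field of algebraic numbers into `ℂ` and `ℂ_p`. Then:

* `z_∞` is the only element `y` of `H` such that for infinitely many `χ` there is an algebraic `x` with `φ_χ(y) = j(x)` and
  `exp(S_χ(T)) → ι(x) Ω_E^+` (by the theorem of Rohrlich almost all `L_{(p)}(E, χ, 1)` are not zero);
* if `(g) = char_Λ(Sel_0(ℚ_∞, E[p^∞])^∨)` and `g` divides `λ` (Kato's divisibility), then the two ideals of Q1 are equal if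
  and only if `|g(χ)|_p · |φ_χ(h₀)|_p = |j(x)|_p` for ONE character `χ` with `exp(S_χ(T)) → ι(x) Ω_E^+`, `x ≠ 0`; and then this
  holds for all of them.

So given Kato's divisibility Q1 for `(E, p)` is a statement on one limit over the numbers of points of `E` over
finite fields and the size of the local map `φ_χ` at a generator of `H`.

The law for Euler products with complex coefficients at an arbitrary real point is due to helper453 (library
`Pool.Agent.Run7.h453.CX`, used in `MP_46b841_nt.ChebotarevAtZero`). That one character suffices given the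
divisibility is well known.
-/

set_option autoImplicit false

open Filter Topology Set Run7.h479.XX Run7.h479.XX.Bounded

namespace Pool.Agent.Results.MP_1186d4_nt.OneLimitDecides

/-- The number of the points of the projective curve with the Weierstrass equation `E` over the field `κ`
(including a singular point, if there is one). -/
noncomputable def points (E : WeierstrassCurve ℤ) (κ : Type) [Field κ] : ℕ :=
  1 + Nat.card {u : κ × κ // (E.map (Int.castRingHom κ)).toAffine.Equation u.1 u.2}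

/-- The numbers `β_{ℓ,1}, β_{ℓ,2}`: of absolute value at most `√ℓ`, and for `ℓ` outside the finite set `S` given by the
numbers of points over the finite fields of characteristic `ℓ`. -/
structure Frobenius (E : WeierstrassCurve ℤ) (S : Finset Nat.Primes) (β : Nat.Primes → Fin 2 → ℂ) :
    Prop where
  good : ∀ ℓ ∉ S, ∀ (κ : Type) [Field κ] [Finite κ] (k : ℕ), Nat.card κ = (ℓ : ℕ) ^ k →
    (points E κ : ℂ) = ((ℓ : ℕ) : ℂ) ^ k + 1 - (β ℓ 0 ^ k + β ℓ 1 ^ k)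
  norm : ∀ ℓ j, ‖β ℓ j‖ ≤ √(ℓ : ℕ)

/-- `L(s) = L(E, χ, s)`: the Euler product for `Re s > 3/2`, analytic at the points of the real interval
`[1, 3/2]`. -/
structure IsTwist {N : ℕ} (β : Nat.Primes → Fin 2 → ℂ) (χ : DirichletCharacter ℂ N) (L : ℂ → ℂ) :
    Prop where
  euler : ∀ s : ℂ, 3 / 2 < s.re → L s = ∏' ℓ : Nat.Primes, ∏ j,
    (1 - χ (ℓ : ℕ) * β ℓ j * ((ℓ : ℕ) : ℂ) ^ (-s))⁻¹
  analytic : ∀ x : ℝ, 1 ≤ x → x ≤ 3 / 2 → AnalyticAt ℂ L (x : ℂ)

/-- The weight `exp(iγ t / T) / Γ(1 + t / T)`. -/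
noncomputable def weight (γ T t : ℝ) : ℂ :=
  Complex.exp ((γ * (t / T) : ℝ) * Complex.I) * ((Real.Gamma (1 + t / T))⁻¹ : ℝ)

/-- The term of `S_χ(T)` for `ℓ = x.1` and `k = x.2`. -/
noncomputable def term {N : ℕ} (β : Nat.Primes → Fin 2 → ℂ) (χ : DirichletCharacter ℂ N) (γ T : ℝ)
    (x : Nat.Primes × ℕ+) : ℂ :=
  χ (x.1 : ℕ) ^ (x.2 : ℕ) * (β x.1 0 ^ (x.2 : ℕ) + β x.1 1 ^ (x.2 : ℕ)) /
    (((x.2 : ℕ) : ℂ) * ((x.1 : ℕ) : ℂ) ^ (x.2 : ℕ)) * weight γ T ((x.2 : ℕ) * Real.log (x.1 : ℕ))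

/-- `S_χ(T)` -/
noncomputable def sum {N : ℕ} (β : Nat.Primes → Fin 2 → ℂ) (χ : DirichletCharacter ℂ N) (γ T : ℝ) :
    ℂ := ∑' x, term β χ γ T x

section proof

variable {E : WeierstrassCurve ℤ} {S : Finset Nat.Primes} {β : Nat.Primes → Fin 2 → ℂ} {N : ℕ}
  {χ : DirichletCharacter ℂ N} {L : ℂ → ℂ}

theorem term_eq (γ T : ℝ) (x : Nat.Primes × ℕ+) :
    Pool.Agent.Run7.h453.CX.eterm (fun ℓ : Nat.Primes => ((ℓ : ℕ) : ℝ))
      (fun ℓ (k : ℕ+) => ∑ j, (χ (ℓ : ℕ) * β ℓ j) ^ (k : ℕ)) 1 γ T x = term β χ γ T x := by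
  have hn : (0 : ℝ) < ((x.1 : ℕ) : ℝ) := by exact_mod_cast x.1.2.pos
  have e1 : Real.exp (-(1 * (((x.2 : ℕ) : ℝ) * Real.log (x.1 : ℕ)))) =
      (((x.1 : ℕ) : ℝ) ^ (x.2 : ℕ))⁻¹ := by
    rw [← Real.rpow_natCast, ← Real.rpow_neg hn.le, Real.rpow_def_of_pos hn]
    congr 1
    ring
  unfold term Pool.Agent.Run7.h453.CX.eterm Pool.Agent.Run7.h453.CX.rterm
    Pool.Agent.Run7.h453.CX.cEs Pool.Agent.Run7.h453.CX.cE Pool.Agent.Run7.h453.CX.lamE
    Pool.Agent.W189.ML.om weight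
  rw [e1]
  simp only [Fin.sum_univ_two]
  push_cast
  rw [mul_pow, mul_pow, ← mul_add, div_mul_eq_div_div]
  ring

theorem Frobenius.norm' (h : Frobenius E S β) (ℓ : Nat.Primes) (j : Fin 2) :
    ‖χ (ℓ : ℕ) * β ℓ j‖ ≤ ((ℓ : ℕ) : ℝ) ^ (1 / 2 : ℝ) := by
  rw [← Real.sqrt_eq_rpow, norm_mul]
  calc ‖χ (ℓ : ℕ)‖ * ‖β ℓ j‖ ≤ 1 * √(ℓ : ℕ) :=
        mul_le_mul (χ.norm_le_one _) (h.norm ℓ j) (norm_nonneg _) zero_le_one
    _ = _ := one_mul _

theorem two_le (ℓ : Nat.Primes) : (2 : ℝ) ≤ ((ℓ : ℕ) : ℝ) := by exact_mod_cast ℓ.2.two_le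

theorem summable_primes (σ : ℝ) (hσ : 1 < σ) : Summable fun ℓ : Nat.Primes => ((ℓ : ℕ) : ℝ) ^ (-σ) :=
  (Nat.Primes.summable_rpow (r := -σ)).2 (by linarith)

theorem term_summable (h : Frobenius E S β) (χ : DirichletCharacter ℂ N) (γ : ℝ) {T : ℝ}
    (hT : 0 < T) : Summable fun x => ‖term β χ γ T x‖ := by
  have E' := Pool.Agent.Run7.h453.CX.ed_of (N := 2) (κ := 1 / 2)
    (q := fun ℓ : Nat.Primes => ((ℓ : ℕ) : ℝ)) (a := fun ℓ j => χ (ℓ : ℕ) * β ℓ j) two_le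
    summable_primes (fun ℓ j => h.norm' ℓ j)
  exact (E'.eterm_summable 1 γ hT).congr fun x => by rw [term_eq]

theorem sum_lim (h : Frobenius E S β) (hL : IsTwist β χ L) {γ : ℝ} (hγ : Real.pi / 2 < γ) :
    Tendsto (fun T : ℝ => Complex.exp (sum β χ γ T)) atTop (𝓝 (L 1)) := by
  have han := (hL.analytic 1 le_rfl (by norm_num)).continuousAt
  rw [Complex.ofReal_one] at han
  have h1 := law_lim (N := 2) (q := fun ℓ : Nat.Primes => ((ℓ : ℕ) : ℝ))
    (a := fun ℓ j => χ (ℓ : ℕ) * β ℓ j) (κ := 1 / 2) (σ₀ := 1) (F := L) two_le summable_primes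
    (fun ℓ j => h.norm' ℓ j) (fun x hx hx' => (hL.analytic x hx (by linarith)).meromorphicAt)
    (by norm_num) (fun s hs => by
      rw [hL.euler s (by norm_num at hs ⊢; exact hs)]
      simp) (r := 0) (A := L 1) (by
        simpa using han.tendsto.mono_left nhdsWithin_le_nhds) hγ
  simp only [pow_zero, one_mul, Nat.cast_zero, zero_mul, Complex.exp_zero] at h1
  refine h1.congr fun T => ?_
  congr 1
  exact tsum_congr fun x => term_eq γ T x

end proof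

variable {p : ℕ} [Fact p.Prime] {C : Type} [NormedField C] [NormedAlgebra ℚ_[p] C] [CompleteSpace C]
  [IsUltrametricDist C] {H : Type} [AddCommGroup H] [Module (PowerSeries ℤ_[p]) H]

/-- **Theorem.** Let `H` be a `Λ`-module, `Λ = ℤ_p[[X]]`, generated by `h₀`, `ζ = lam • h₀` an element (`z_∞` in Q1), `χ_i`
characters modulo `p ^ n_i`, `L_i(s) = L(E, χ_i, s)`, `z_i` points of the open unit disc of `C` (`= ℂ_p`) with `|z_i| → 1`,
`φ_i : H → C` maps with `φ_i(a y) = a(z_i) φ_i(y)` and `φ_i(ζ) = j(w_i)`, where `ι(w_i) Ω = L_i(1)` and `w_i ≠ 0` for all but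
finitely many `i`. Let `γ > π/2`.

* `S_{χ_i}(T)` converges absolutely and `exp(S_{χ_i}(T)) → ι(w_i) Ω`.
* `y = ζ` for `y ∈ H` iff for infinitely many `i` there is an `x` with `φ_i(y) = j(x)` and
  `exp(S_{χ_i}(T)) → ι(x) Ω`.
* If `g ∣ lam` and `exp(S_{χ_i}(T)) → ι(x) Ω` for one `i` and an `x ≠ 0`, then `(lam) = (g)` iff
  `|g(z_i)| |φ_i(h₀)| = |j(x)|`. -/
theorem result (E : WeierstrassCurve ℤ) (S : Finset Nat.Primes) (β : Nat.Primes → Fin 2 → ℂ)
    (hβ : Frobenius E S β) (n : ℕ → ℕ) (χ : ∀ i, DirichletCharacter ℂ (p ^ n i))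
    (L : ℕ → ℂ → ℂ) (hL : ∀ i, IsTwist β (χ i) (L i)) (Ω : ℂ) (hΩ : Ω ≠ 0)
    {A : Type} [Field A] (ι : A →+* ℂ) (j : A →+* C) (z : ℕ → C) (hz : ∀ i, ‖z i‖ < 1)
    (hz1 : Tendsto (fun i => ‖z i‖) atTop (𝓝 1)) (w : ℕ → A) (hw : ∀ i, ι (w i) * Ω = L i 1)
    (hw0 : ∀ᶠ i in atTop, w i ≠ 0) (h₀ : H) (hgen : ∀ y : H, ∃ a : PowerSeries ℤ_[p], y = a • h₀)
    (lam : PowerSeries ℤ_[p]) (φ : ℕ → H → C)
    (hφ : ∀ i (a : PowerSeries ℤ_[p]) (y : H), φ i (a • y) = ev (co a) (z i) * φ i y)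
    (hζ : ∀ i, φ i (lam • h₀) = j (w i)) (γ : ℝ) (hγ : Real.pi / 2 < γ) :
    (∀ i, (∀ T : ℝ, 0 < T → Summable fun x => ‖term β (χ i) γ T x‖) ∧
      Tendsto (fun T : ℝ => Complex.exp (sum β (χ i) γ T)) atTop (𝓝 (ι (w i) * Ω))) ∧
    (∀ y : H, y = lam • h₀ ↔ ∃ᶠ i in atTop, ∃ x : A, φ i y = j x ∧
      Tendsto (fun T : ℝ => Complex.exp (sum β (χ i) γ T)) atTop (𝓝 (ι x * Ω))) ∧
    (∀ g : PowerSeries ℤ_[p], g ∣ lam → ∀ (i : ℕ) (x : A), x ≠ 0 →
      Tendsto (fun T : ℝ => Complex.exp (sum β (χ i) γ T)) atTop (𝓝 (ι x * Ω)) →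
      (Ideal.span {lam} = Ideal.span {g} ↔ ‖ev (co g) (z i)‖ * ‖φ i h₀‖ = ‖j x‖)) := by
  have hlim : ∀ i, Tendsto (fun T : ℝ => Complex.exp (sum β (χ i) γ T)) atTop (𝓝 (ι (w i) * Ω)) :=
    fun i => by
      rw [hw]
      exact sum_lim hβ (hL i) hγ
  have huniq : ∀ (i : ℕ) (x : A),
      Tendsto (fun T : ℝ => Complex.exp (sum β (χ i) γ T)) atTop (𝓝 (ι x * Ω)) → x = w i :=
    fun i x hx => ι.injective (mul_right_cancel₀ hΩ (tendsto_nhds_unique hx (hlim i)))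
  refine ⟨fun i => ⟨fun T hT => term_summable hβ (χ i) γ hT, hlim i⟩, fun y => ⟨?_, fun h3 => ?_⟩, ?_⟩
  · rintro rfl
    exact Frequently.of_forall fun i => ⟨w i, hζ i, hlim i⟩
  · obtain ⟨a, rfl⟩ := hgen y
    have h4 : co a = co lam := by
      refine eq_of_frequently (co_le a) (co_le lam) hz hz1 ((h3.and_eventually hw0).mono ?_)
      rintro i ⟨⟨x, hx1, hx2⟩, hwi⟩
      have h5 : ev (co lam) (z i) * φ i h₀ = j (w i) := by rw [← hφ, hζ]
      have h6 : φ i h₀ ≠ 0 := by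
        intro h7
        rw [h7, mul_zero] at h5
        exact (map_ne_zero j).2 hwi h5.symm
      rw [hφ, huniq i x hx2, ← h5] at hx1
      exact mul_right_cancel₀ h6 hx1
    rw [co_inj h4]
  · rintro g ⟨h, rfl⟩ i x hx hlimx
    have hxw := huniq i x hlimx
    have h3 : ev (co (g * h)) (z i) * φ i h₀ = j x := by rw [← hφ, hζ i, hxw]
    rw [ev_mul g h (hz i)] at h3
    have h4 : j x ≠ 0 := (map_ne_zero j).2 hx
    have hg0 : ev (co g) (z i) ≠ 0 := by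
      intro h5
      rw [h5, zero_mul, zero_mul] at h3
      exact h4 h3.symm
    have hφ0 : φ i h₀ ≠ 0 := by
      intro h5
      rw [h5, mul_zero] at h3
      exact h4 h3.symm
    have hg : g ≠ 0 := by
      rintro rfl
      refine hg0 ?_
      unfold ev co
      simp
    have h5 : Ideal.span {g * h} = Ideal.span {g} ↔ IsUnit h := by
      rw [eq_comm, Ideal.span_singleton_eq_span_singleton]
      constructor
      · rintro ⟨u, hu⟩
        have : (u : PowerSeries ℤ_[p]) = h := mul_left_cancel₀ hg hu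
        rw [← this]
        exact u.isUnit
      · rintro ⟨u, rfl⟩
        exact ⟨u, rfl⟩
    rw [h5, isUnit_iff h (hz i), ← h3, norm_mul, norm_mul]
    have hg1 : 0 < ‖ev (co g) (z i)‖ := norm_pos_iff.2 hg0
    have hφ1 : 0 < ‖φ i h₀‖ := norm_pos_iff.2 hφ0
    constructor
    · intro h6
      rw [h6, mul_one]
    · intro h6
      have h7 : ‖ev (co g) (z i)‖ * ‖φ i h₀‖ * (‖ev (co h) (z i)‖ - 1) = 0 := by linarith
      rcases mul_eq_zero.1 h7 with h8 | h8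
      · exact absurd h8 (mul_pos hg1 hφ1).ne'
      · linarith

end Pool.Agent.Results.MP_1186d4_nt.OneLimitDecides
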